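import Mathlib
import Pool.Agent.U945.APP.Main

/-!
# The `p`-adic strong four exponentials conjecture and additive relations between rational numbers

Let `L` be the Iwasawa logarithm and `LogForms` the space of the linear combinations, with algebraic
coefficients, of `1` and of values of `L` at algebraic numbers.  A rational number `x` such that
`t L(x)` and `t L(1 - x)` are in `LogForms`, `t` transcendental, gives a singular `2 × 2` matrix with
first row `(L(x), L(1 - x))` and `ℚ̄`-linearly independent rows: a counterexample to the conjecture as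
soon as its columns are independent.  We describe the additive relations between the rational numbers
`x` with `t L(x)` in `LogForms`, for a given transcendental `t`.

1. Let `E` be the set of the rational numbers `x ≠ 0, 1` such that `x` and `1 - x` are `p`-adic units
   and `t L(x)`, `t L(1 - x)` are in `LogForms`.  It is stable under `x ↦ 1 - x` and `x ↦ 1 / x`; let
   `Orb x` be the orbit of `x` under the group generated by these two maps, it has six elements, or
   three for `x = 1/2`.  Then `E` is one of the following sets: the empty set; `Orb (1/2) = {1/2, 2, -1}`;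
   one orbit `Orb x`; `Orb (1/2) ∪ Orb x` where `x = 1 / 2 ^ k` or `x = 1 / (2 ^ k + 1)`;
   `Orb (1/2) ∪ Orb (1/3) ∪ Orb (1/4) ∪ Orb (1/9)`.  So `E` has `0`, `3`, `6`, `9` or `21` elements.

2. For every `n` there are only finitely many `n`-tuples of nonzero rational numbers `x_i` (units at
   `p` or not) such that `t L(x_i)` is in `LogForms` for all `i`, `x_1 + ⋯ + x_n = 1` and no sum over a
   nonempty subset of the indices is `0`.
-/

set_option autoImplicit false

namespace Pool.Agent.Results.MP_dd0d16_nt.AdditiveRelations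

/-- `L` is the Iwasawa `p`-adic logarithm on the algebraic closure of `ℚ_p`. -/
def IsIwasawaLog (p : ℕ) [Fact p.Prime] (L : PadicAlgCl p → PadicAlgCl p) : Prop :=
  (∀ x y : PadicAlgCl p, x ≠ 0 → y ≠ 0 → L (x * y) = L x + L y) ∧
  L ((p : ℕ) : PadicAlgCl p) = 0 ∧
  ∀ z : PadicAlgCl p, ‖z‖ < 1 →
    HasSum (fun n : ℕ => (-1 : PadicAlgCl p) ^ n * z ^ (n + 1) / ((n : PadicAlgCl p) + 1))
      (L (1 + z))

/-- The linear combinations, with algebraic coefficients, of `1` and of the values of `L` at nonzero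
algebraic numbers. -/
noncomputable def LogForms (p : ℕ) [Fact p.Prime] (L : PadicAlgCl p → PadicAlgCl p) :
    Submodule (algebraicClosure ℚ (PadicAlgCl p)) (PadicAlgCl p) :=
  Submodule.span (algebraicClosure ℚ (PadicAlgCl p))
    ({1} ∪ {z | ∃ α : PadicAlgCl p, α ≠ 0 ∧ IsAlgebraic ℚ α ∧ z = L α})

/-- The rational numbers `x ≠ 0, 1` such that `x`, `1 - x` are `p`-adic units and `t L(x)`,
`t L(1 - x)` are in `LogForms`. -/
def Pairs (p : ℕ) [Fact p.Prime] (L : PadicAlgCl p → PadicAlgCl p) (t : PadicAlgCl p) : Set ℚ :=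
  {x : ℚ | x ≠ 0 ∧ x ≠ 1 ∧ padicValRat p x = 0 ∧ padicValRat p (1 - x) = 0 ∧
    t * L (x : PadicAlgCl p) ∈ LogForms p L ∧ t * L ((1 - x : ℚ) : PadicAlgCl p) ∈ LogForms p L}

/-- The orbit of `x` under `x ↦ 1 - x` and `x ↦ 1 / x`. -/
def Orb (x : ℚ) : Set ℚ := {x, 1 - x, x⁻¹, (1 - x)⁻¹, 1 - x⁻¹, 1 - (1 - x)⁻¹}

/-- **Additive relations and the `p`-adic strong four exponentials conjecture.** -/
theorem result (p : ℕ) [Fact p.Prime] (L : PadicAlgCl p → PadicAlgCl p) (hL : IsIwasawaLog p L)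
    (t : PadicAlgCl p) (ht : Transcendental ℚ t) :
    (Pairs p L t = ∅ ∨ Pairs p L t = Orb (1 / 2) ∨
      (∃ x : ℚ, 0 < x ∧ x < 1 / 2 ∧ Pairs p L t = Orb x) ∨
      (∃ x : ℚ, ∃ k : ℕ, 0 < x ∧ x < 1 / 2 ∧ (x = 1 / 2 ^ k ∨ x = 1 / (2 ^ k + 1)) ∧
        Pairs p L t = Orb (1 / 2) ∪ Orb x) ∨
      Pairs p L t = Orb (1 / 2) ∪ Orb (1 / 3) ∪ Orb (1 / 4) ∪ Orb (1 / 9)) ∧
    ((Pairs p L t).Finite ∧ ((Pairs p L t).ncard = 0 ∨ (Pairs p L t).ncard = 3 ∨
      (Pairs p L t).ncard = 6 ∨ (Pairs p L t).ncard = 9 ∨ (Pairs p L t).ncard = 21)) ∧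
    ∀ n : ℕ, {x : Fin n → ℚ | (∀ i, x i ≠ 0 ∧ t * L (x i : PadicAlgCl p) ∈ LogForms p L) ∧
      ∑ i, x i = 1 ∧ ∀ J : Finset (Fin n), J.Nonempty → ∑ i ∈ J, x i ≠ 0}.Finite := by
  have hL' : Pool.Agent.W245.PB.IsIwasawaLog p L := ⟨hL.1, hL.2.1, hL.2.2⟩
  have h5 := Pool.Agent.U945.APP.five hL' ht ((LogForms p L).restrictScalars ℚ) (fun z hz => hz)
  exact ⟨h5, Pool.Agent.U945.APP.five_card h5,
    Pool.Agent.U945.APP.sums hL' ht ((LogForms p L).restrictScalars ℚ) (fun z hz => hz)⟩

end Pool.Agent.Results.MP_dd0d16_nt.AdditiveRelations
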