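import Pool.Agent.U979.GX.Padic

set_option autoImplicit false

/-!
# `p`-adic strong four exponentials: few counterexamples with entries in a finite set

Let `L` be the Iwasawa logarithm on the algebraic closure of `ℚ_p` and `LogForms L` the space of the
linear forms in `1` and `p`-adic logarithms of algebraic numbers, with algebraic coefficients.  Let `B`
be ANY finite set of `n` nonzero elements of `LogForms L` with transcendental quotients (for instance
logarithms of algebraic numbers with irrational quotients, by Brumer's theorem).  The `p`-adic strong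
four exponentials conjecture says that no singular matrix `(a, b; c, d)` with entries in `B` and with
independent rows and columns exists.  We prove, with absolute constants:

1. at most `4 n ^ (5/2)` of the `n ^ 4` matrices with entries in `B` are counterexamples, and even at most
   `4 n ^ (5/2)` quadruples in `B ^ 4` are such that `b c / (a d)` is algebraic;
2. at most `5 n ^ 3` sextuples `a, b, c, d, e, f` in `B` have `b / a`, `d / c`, `f / e` equal up to
   algebraic factors; the order of magnitude `n ^ 3` is optimal (the case `a = b`, `c = d`, `e = f`);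
3. `B / B` has at least `n ^ (3/2) / √5` and `B * B` at least `n ^ (3/2) / 4` elements.

Proof.  Given `b_1 ≠ b_2` and `c` in `B`, there are at most two `b` in `B` such that `(c / b) b_1` and
`(c / b) b_2` are in `B` up to algebraic factors: such `b` lie in the plane of `b_1, b_2` by the `p`-adic
strong six exponentials theorem (library), the `1 / b` also lie in a plane by the same theorem, and this
is a contradiction for three `b` (`GX.two_aux`).  This bounds the third moment of the number of the
representations of a quotient, and so the second moment and the number of the quotients.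
-/

namespace Pool.Agent.Results.MP_dd0d16_nt.MultiplicativeEnergy

open Finset
open scoped Pointwise

/-- `L` is the Iwasawa logarithm on the algebraic closure of `ℚ_p`. -/
structure IsIwasawaLog (p : ℕ) [Fact p.Prime] (L : PadicAlgCl p → PadicAlgCl p) : Prop where
  mul : ∀ x y : PadicAlgCl p, x ≠ 0 → y ≠ 0 → L (x * y) = L x + L y
  prime : L ((p : ℕ) : PadicAlgCl p) = 0
  ser : ∀ z : PadicAlgCl p, ‖z‖ < 1 →
    HasSum (fun n : ℕ => (-1 : PadicAlgCl p) ^ n * z ^ (n + 1) / ((n : PadicAlgCl p) + 1))
      (L (1 + z))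

/-- The space of all linear combinations with algebraic coefficients of `1` and of the values of `L`
at algebraic numbers. -/
noncomputable def LogForms {p : ℕ} [Fact p.Prime] (L : PadicAlgCl p → PadicAlgCl p) :
    Submodule (algebraicClosure ℚ (PadicAlgCl p)) (PadicAlgCl p) :=
  Submodule.span (algebraicClosure ℚ (PadicAlgCl p))
    ({1} ∪ {z | ∃ α : PadicAlgCl p, α ≠ 0 ∧ IsAlgebraic ℚ α ∧ z = L α})

/-- `M` is a counterexample to the `p`-adic strong four exponentials conjecture: its entries are
linear forms in logarithms, the rows and the columns are linearly independent over the algebraic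
numbers, and the determinant is zero. -/
def IsCounterexample {p : ℕ} [Fact p.Prime] (L : PadicAlgCl p → PadicAlgCl p)
    (M : Matrix (Fin 2) (Fin 2) (PadicAlgCl p)) : Prop :=
  (∀ i j, M i j ∈ LogForms L) ∧
    LinearIndependent (algebraicClosure ℚ (PadicAlgCl p)) M.row ∧
    LinearIndependent (algebraicClosure ℚ (PadicAlgCl p)) M.col ∧ M.det = 0

/-- nonzero numbers with transcendental quotients -/
def TranscendentalQuotients {p : ℕ} [Fact p.Prime] (B : Finset (PadicAlgCl p)) : Prop :=
  (∀ x ∈ B, x ≠ 0) ∧ ∀ x ∈ B, ∀ y ∈ B, x ≠ y → Transcendental ℚ (x / y)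

open Classical in
/-- **Main result.** -/
theorem result (p : ℕ) [Fact p.Prime] (L : PadicAlgCl p → PadicAlgCl p) (hL : IsIwasawaLog p L) :
    (∀ B : Finset (PadicAlgCl p), (∀ x ∈ B, x ∈ LogForms L) → TranscendentalQuotients B →
      (({M : Matrix (Fin 2) (Fin 2) (PadicAlgCl p) | (∀ i j, M i j ∈ B) ∧
        IsCounterexample L M}.ncard : ℝ) ≤ 4 * (B.card : ℝ) ^ (5 / 2 : ℝ)) ∧
      ((((B ×ˢ B) ×ˢ (B ×ˢ B)).filter fun q =>
        IsAlgebraic ℚ ((q.1.2 * q.2.1) / (q.1.1 * q.2.2))).card : ℝ) ≤
          4 * (B.card : ℝ) ^ (5 / 2 : ℝ) ∧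
      (((B ×ˢ B) ×ˢ (B ×ˢ B) ×ˢ (B ×ˢ B)).filter fun q =>
        IsAlgebraic ℚ ((q.1.2 * q.2.1.1) / (q.1.1 * q.2.1.2)) ∧
        IsAlgebraic ℚ ((q.1.2 * q.2.2.1) / (q.1.1 * q.2.2.2))).card ≤ 5 * B.card ^ 3 ∧
      B.card ^ 3 ≤ 5 * (B / B).card ^ 2 ∧
      (B.card : ℝ) ^ (3 / 2 : ℝ) ≤ 4 * ((B * B).card : ℝ)) ∧
    (∀ B : Finset (PadicAlgCl p),
      (∀ x ∈ B, x ≠ 0 ∧ ∃ α : PadicAlgCl p, α ≠ 0 ∧ IsAlgebraic ℚ α ∧ x = L α) →
      (∀ x ∈ B, ∀ y ∈ B, x ≠ y → ∀ q : ℚ, x ≠ q * y) →
        (∀ x ∈ B, x ∈ LogForms L) ∧ TranscendentalQuotients B) := by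
  have hL' : Pool.Agent.W245.PB.IsIwasawaLog p L := ⟨hL.mul, hL.prime, hL.ser⟩
  have hac : IsAlgClosed (algebraicClosure ℚ (PadicAlgCl p)) :=
    Pool.Agent.N770.isAlgClosed_QC (Cc := PadicAlgCl p)
  have hS := Pool.Agent.U979.GX.six_padic hL'
  refine ⟨?_, ?_⟩
  · intro B hB hT
    have htr : ∀ s ∈ B, ∀ t ∈ B, s ≠ t →
        s / t ∉ Pool.Agent.U979.GX.Cs (algebraicClosure ℚ (PadicAlgCl p)) (PadicAlgCl p) := by
      intro s hs t ht hst h
      exact hT.2 s hs t ht hst (Pool.Agent.U979.GX.mem_Cs_padic.mp h)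
    have h1 := Pool.Agent.U979.GX.quads hS B hT.1 htr hB
    have h2 := Pool.Agent.U979.GX.sexts hS B hT.1 htr hB
    have h3 := Pool.Agent.U979.GX.products hS B hT.1 htr hB
    simp only [Pool.Agent.U979.GX.mem_Cs_padic] at h1 h2
    refine ⟨?_, h1, h2.1, h2.2, h3⟩
    refine le_trans ?_ h1
    rw [Nat.cast_le, ← Set.ncard_coe_finset]
    apply Set.ncard_le_ncard_of_injOn (fun M => ((M 0 0, M 0 1), (M 1 0, M 1 1)))
    · rintro M ⟨hMB, hM⟩
      rw [Finset.mem_coe, Finset.mem_filter, Finset.mem_product, Finset.mem_product,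
        Finset.mem_product]
      refine ⟨⟨⟨hMB 0 0, hMB 0 1⟩, hMB 1 0, hMB 1 1⟩, ?_⟩
      have hdet := hM.2.2.2
      rw [Matrix.det_fin_two] at hdet
      simp only
      have h4 : M 0 1 * M 1 0 = M 0 0 * M 1 1 := by linear_combination -hdet
      rw [h4, div_self (mul_ne_zero (hT.1 _ (hMB 0 0)) (hT.1 _ (hMB 1 1)))]
      exact isAlgebraic_one
    · intro M _ N _ h
      have h5 := Prod.mk.inj h
      have h6 := Prod.mk.inj h5.1
      have h7 := Prod.mk.inj h5.2
      ext i j
      fin_cases i <;> fin_cases j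
      · exact h6.1
      · exact h6.2
      · exact h7.1
      · exact h7.2
  · intro B hB hirr
    refine ⟨fun x hx => Submodule.subset_span (Or.inr (hB x hx).2), fun x hx => (hB x hx).1, ?_⟩
    intro x hx y hy hxy
    exact Pool.Agent.U979.GX.brumer_pair hL' (hB x hx).2 (hB y hy).2 (hB y hy).1
      (hirr x hx y hy hxy)

end Pool.Agent.Results.MP_dd0d16_nt.MultiplicativeEnergy
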