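import Pool.Agent.U979.RG.Pad

set_option autoImplicit false

/-!
# Rigidity of the counterexamples to the `p`-adic four exponentials conjecture

Let `L` be the Iwasawa logarithm on the algebraic closure of `ℚ_p` and `LogForms L` the space of the
linear forms in `1` and `p`-adic logarithms of algebraic numbers, with algebraic coefficients.  A
counterexample to the `p`-adic strong four exponentials conjecture is a `2 × 2` matrix `M` with entries in
`LogForms L`, rows and columns linearly independent over the algebraic numbers, and determinant zero; the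
quotient `ρ = M_12 / M_11` is its slope.  Obviously `A M B` is a counterexample, too, for all invertible
algebraic matrices `A`, `B`, and its slope is a Möbius transform of `ρ` with algebraic coefficients.

1. Strong rigidity.  Let `M` and `N` be counterexamples with slopes `ρ`, `ρ'`, and suppose that
   `1, ρ, ρ', ρ ρ'` are linearly dependent over the algebraic numbers.  Then `N = A M B` with invertible
   algebraic matrices `A`, `B`.  So in each class of slopes under the Möbius transformations with
   algebraic coefficients there is at most one counterexample, up to algebraic row and column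
   operations.
2. Rational rigidity.  Suppose in addition that the entries of `M` and `N` are logarithms of algebraic
   numbers (counterexamples to the `p`-adic four exponentials conjecture; it is enough that the rows and
   the columns are linearly independent over `ℚ`).  Then `N = A M B` with invertible RATIONAL matrices
   `A`, `B`, and the relation between `1, ρ, ρ', ρ ρ'` is proportional to a relation with rational
   coefficients.
3. In particular, if `ρ` is the slope of such a matrix of logarithms and `β` is algebraic and not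
   rational then `ρ + β` and `β ρ` are not slopes of such matrices.

Proof.  By the `p`-adic strong six exponentials theorem (library) the elements `y` of `LogForms L` for
which `ρ y` is in `LogForms L` are the combinations of `M_11` and `M_21`.  If
`a + b ρ + c ρ' + d ρ ρ' = 0` and `u = N_i1`, `v = N_i2 = ρ' u`, then `ρ (d v + b u) = - (c v + a u)`, so
`d v + b u` is such an element `y`, which gives 1.  For 2 the theorem of Brumer (library) shows that the
entries of `N` are rational combinations of the entries of `M`; if these are linearly independent then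
all products `A_ik B_lj` are rational, otherwise `M` becomes symmetric by rational row operations and the
entries of `N` are products of two linear polynomials in `ρ` with rational coefficients
(`RG.split_rat`).
-/

namespace Pool.Agent.Results.MP_dd0d16_nt.RigidityOfCounterexamples

/-- `L` is the Iwasawa logarithm on the algebraic closure of `ℚ_p`. -/
structure IsIwasawaLog (p : ℕ) [Fact p.Prime] (L : PadicAlgCl p → PadicAlgCl p) : Prop where
  mul : ∀ x y : PadicAlgCl p, x ≠ 0 → y ≠ 0 → L (x * y) = L x + L y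
  prime : L ((p : ℕ) : PadicAlgCl p) = 0
  ser : ∀ z : PadicAlgCl p, ‖z‖ < 1 →
    HasSum (fun n : ℕ => (-1 : PadicAlgCl p) ^ n * z ^ (n + 1) / ((n : PadicAlgCl p) + 1))
      (L (1 + z))

/-- The space of all linear combinations with algebraic coefficients of `1` and of the values of `L`
at algebraic numbers. -/
noncomputable def LogForms {p : ℕ} [Fact p.Prime] (L : PadicAlgCl p → PadicAlgCl p) :
    Submodule (algebraicClosure ℚ (PadicAlgCl p)) (PadicAlgCl p) :=
  Submodule.span (algebraicClosure ℚ (PadicAlgCl p))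
    ({1} ∪ {z | ∃ α : PadicAlgCl p, α ≠ 0 ∧ IsAlgebraic ℚ α ∧ z = L α})

/-- `M` is a counterexample to the `p`-adic strong four exponentials conjecture: its entries are
linear forms in logarithms, the rows and the columns are linearly independent over the algebraic
numbers, and the determinant is zero. -/
def IsCounterexample {p : ℕ} [Fact p.Prime] (L : PadicAlgCl p → PadicAlgCl p)
    (M : Matrix (Fin 2) (Fin 2) (PadicAlgCl p)) : Prop :=
  (∀ i j, M i j ∈ LogForms L) ∧
    LinearIndependent (algebraicClosure ℚ (PadicAlgCl p)) M.row ∧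
    LinearIndependent (algebraicClosure ℚ (PadicAlgCl p)) M.col ∧ M.det = 0

/-- `M` is a counterexample to the `p`-adic four exponentials conjecture: its entries are logarithms of
algebraic numbers, the rows and the columns are linearly independent over the rational numbers,
and the determinant is zero. -/
def IsCounterexampleLog {p : ℕ} [Fact p.Prime] (L : PadicAlgCl p → PadicAlgCl p)
    (M : Matrix (Fin 2) (Fin 2) (PadicAlgCl p)) : Prop :=
  (∀ i j, ∃ α : PadicAlgCl p, α ≠ 0 ∧ IsAlgebraic ℚ α ∧ M i j = L α) ∧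
    LinearIndependent ℚ M.row ∧ LinearIndependent ℚ M.col ∧ M.det = 0

/-- the slope of a matrix of rank one -/
noncomputable def slope {p : ℕ} [Fact p.Prime] (M : Matrix (Fin 2) (Fin 2) (PadicAlgCl p)) :
    PadicAlgCl p := M 0 1 / M 0 0

open Pool.Agent.U979.RG

theorem rowsOf {K : Type*} [Field K] [CharZero K] {M : Matrix (Fin 2) (Fin 2) K}
    (h : LinearIndependent ℚ M.row) (a b : ℚ) (hab : ∀ j, (a : K) * M 0 j + b * M 1 j = 0) :
    a = 0 ∧ b = 0 := by
  have h1 := Fintype.linearIndependent_iff.mp h ![a, b] (by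
    rw [Fin.sum_univ_two]
    funext j
    simp only [Matrix.cons_val_zero, Matrix.cons_val_one, Pi.add_apply, Pi.smul_apply,
      Matrix.row_apply, Pi.zero_apply, Rat.smul_def]
    exact hab j)
  exact ⟨h1 0, h1 1⟩

theorem ctr_of {K : Type*} [Field K] [CharZero K] {Λ : Submodule ℚ K}
    {M : Matrix (Fin 2) (Fin 2) K} (hm : ∀ i j, M i j ∈ Λ) (hr : LinearIndependent ℚ M.row)
    (hc : LinearIndependent ℚ M.col) (hd : M.det = 0) : Ctr Λ M where
  mem := hm
  rows a b hab := rowsOf hr a b hab
  cols a b hab := rowsOf (M := M.transpose) hc a b hab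
  det := by
    rw [Matrix.det_fin_two] at hd
    linear_combination hd

section

variable {p : ℕ} [Fact p.Prime] {L : PadicAlgCl p → PadicAlgCl p}

theorem log_case (hL : IsIwasawaLog p L)
    (M N : Matrix (Fin 2) (Fin 2) (PadicAlgCl p)) (hM : IsCounterexampleLog L M)
    (hN : IsCounterexampleLog L N) (α β γ δ : PadicAlgCl p) (hα : IsAlgebraic ℚ α)
    (hβ : IsAlgebraic ℚ β) (hγ : IsAlgebraic ℚ γ) (hδ : IsAlgebraic ℚ δ)
    (hne : ¬ (α = 0 ∧ β = 0 ∧ γ = 0 ∧ δ = 0))
    (h : α + β * slope M + γ * slope N + δ * slope M * slope N = 0) :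
    (∃ A B : Matrix (Fin 2) (Fin 2) ℚ, A.det ≠ 0 ∧ B.det ≠ 0 ∧
      N = A.map (fun q => (q : PadicAlgCl p)) * M * B.map fun q => (q : PadicAlgCl p)) ∧
    ∃ κ : PadicAlgCl p, κ ≠ 0 ∧
      ∃ p q r s : ℚ, κ * α = p ∧ κ * β = q ∧ κ * γ = r ∧ κ * δ = s := by
  have hL' : Pool.Agent.W245.PB.IsIwasawaLog p L := ⟨hL.mul, hL.prime, hL.ser⟩
  haveI : IsAlgClosed (algebraicClosure ℚ (PadicAlgCl p)) :=
    Pool.Agent.N770.isAlgClosed_QC (Cc := PadicAlgCl p)
  obtain ⟨h1, κ, hκ, ⟨p, hp⟩, ⟨q, hq⟩, ⟨r, hr⟩, s, hs⟩ := rigid (sys_padic hL')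
    (ctr_of (Λ := logP hL') hM.1 hM.2.1 hM.2.2.1 hM.2.2.2)
    (ctr_of (Λ := logP hL') hN.1 hN.2.1 hN.2.2.1 hN.2.2.2)
    (Pool.Agent.U979.GX.mem_Cs_padic.mpr hα) (Pool.Agent.U979.GX.mem_Cs_padic.mpr hβ)
    (Pool.Agent.U979.GX.mem_Cs_padic.mpr hγ) (Pool.Agent.U979.GX.mem_Cs_padic.mpr hδ) hne h
  exact ⟨h1, κ, hκ, p, q, r, s, hp.symm, hq.symm, hr.symm, hs.symm⟩

end

/-- **Main result.** -/
theorem result (p : ℕ) [Fact p.Prime] (L : PadicAlgCl p → PadicAlgCl p) (hL : IsIwasawaLog p L) :
    (∀ M N : Matrix (Fin 2) (Fin 2) (PadicAlgCl p), IsCounterexample L M → IsCounterexample L N →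
      ∀ α β γ δ : PadicAlgCl p, IsAlgebraic ℚ α → IsAlgebraic ℚ β → IsAlgebraic ℚ γ →
        IsAlgebraic ℚ δ → ¬ (α = 0 ∧ β = 0 ∧ γ = 0 ∧ δ = 0) →
        α + β * slope M + γ * slope N + δ * slope M * slope N = 0 →
        ∃ A B : Matrix (Fin 2) (Fin 2) (PadicAlgCl p), (∀ i j, IsAlgebraic ℚ (A i j)) ∧
          (∀ i j, IsAlgebraic ℚ (B i j)) ∧ A.det ≠ 0 ∧ B.det ≠ 0 ∧ N = A * M * B) ∧
    (∀ M N : Matrix (Fin 2) (Fin 2) (PadicAlgCl p), IsCounterexampleLog L M →
      IsCounterexampleLog L N →
      (∀ α β γ δ : PadicAlgCl p, IsAlgebraic ℚ α → IsAlgebraic ℚ β → IsAlgebraic ℚ γ →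
        IsAlgebraic ℚ δ → ¬ (α = 0 ∧ β = 0 ∧ γ = 0 ∧ δ = 0) →
        α + β * slope M + γ * slope N + δ * slope M * slope N = 0 →
        (∃ A B : Matrix (Fin 2) (Fin 2) ℚ, A.det ≠ 0 ∧ B.det ≠ 0 ∧
          N = A.map (fun q => (q : PadicAlgCl p)) * M * B.map fun q => (q : PadicAlgCl p)) ∧
        ∃ κ : PadicAlgCl p, κ ≠ 0 ∧
          ∃ p q r s : ℚ, κ * α = p ∧ κ * β = q ∧ κ * γ = r ∧ κ * δ = s) ∧
      ∀ β : PadicAlgCl p, IsAlgebraic ℚ β → (∀ q : ℚ, β ≠ q) →
        slope N ≠ slope M + β ∧ slope N ≠ β * slope M) := by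
  refine ⟨?_, ?_⟩
  · intro M N hM hN α β γ δ hα hβ hγ hδ hne h
    have hL' : Pool.Agent.W245.PB.IsIwasawaLog p L := ⟨hL.mul, hL.prime, hL.ser⟩
    have hS := Pool.Agent.U979.GX.six_padic hL'
    obtain ⟨A, B, hA, hB, hAB⟩ := rigidS hS (CtrS.of_indep hM.1 hM.2.1 hM.2.2.1 hM.2.2.2)
      (CtrS.of_indep hN.1 hN.2.1 hN.2.2.1 hN.2.2.2)
      (Pool.Agent.U979.GX.mem_Cs_padic.mpr hα) (Pool.Agent.U979.GX.mem_Cs_padic.mpr hβ)
      (Pool.Agent.U979.GX.mem_Cs_padic.mpr hγ) (Pool.Agent.U979.GX.mem_Cs_padic.mpr hδ) hne h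
    have hdet : ∀ C : Matrix (Fin 2) (Fin 2) (algebraicClosure ℚ (PadicAlgCl p)), C.det ≠ 0 →
        (C.map (algebraMap (algebraicClosure ℚ (PadicAlgCl p)) (PadicAlgCl p))).det ≠ 0 := by
      intro C hC h0
      have h1 := RingHom.map_det (algebraMap (algebraicClosure ℚ (PadicAlgCl p)) (PadicAlgCl p)) C
      rw [RingHom.mapMatrix_apply, h0] at h1
      exact hC ((map_eq_zero _).mp h1)
    exact ⟨_, _, fun i j => mem_algebraicClosure_iff.mp (A i j).2,
      fun i j => mem_algebraicClosure_iff.mp (B i j).2, hdet A hA, hdet B hB, hAB⟩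
  · intro M N hM hN
    refine ⟨log_case hL M N hM hN, ?_⟩
    intro β hβ hirr
    have hrat : ∀ κ : PadicAlgCl p, κ ≠ 0 → ∀ u v : ℚ, κ * β = u → κ = v → False := by
      intro κ hκ u v h1 h2
      have hv : (v : PadicAlgCl p) ≠ 0 := by rw [← h2]; exact hκ
      apply hirr (u / v)
      push_cast
      rw [eq_div_iff hv, ← h1, h2, mul_comm]
    constructor
    · intro h
      obtain ⟨-, κ, hκ, u, q, r, s, h1, h2, h3, -⟩ := log_case hL M N hM hN β 1 (-1) 0 hβ
        isAlgebraic_one isAlgebraic_one.neg isAlgebraic_zero (fun h => one_ne_zero h.2.1) (by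
          rw [h]
          ring)
      exact hrat κ hκ u q h1 (by rw [mul_one] at h2; exact h2)
    · intro h
      obtain ⟨-, κ, hκ, u, q, r, s, -, h2, h3, -⟩ := log_case hL M N hM hN 0 β (-1) 0
        isAlgebraic_zero hβ isAlgebraic_one.neg isAlgebraic_zero
        (fun h => (neg_ne_zero.mpr one_ne_zero) h.2.2.1) (by
          rw [h]
          ring)
      refine hrat κ hκ q (-r) h2 ?_
      push_cast
      linear_combination -h3

end Pool.Agent.Results.MP_dd0d16_nt.RigidityOfCounterexamples
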