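import Pool.Agent.U979.GX.Padic

set_option autoImplicit false

/-!
# `p`-adic strong four exponentials: sets of small multiplicative doubling contain few linear forms
in logarithms

Let `L` be the Iwasawa logarithm on the algebraic closure of `ℚ_p` and `LogForms L` the space of the
linear forms in `1` and `p`-adic logarithms of algebraic numbers, with algebraic coefficients.  For
EVERY finite set `A` of nonzero elements of the algebraic closure of `ℚ_p` whose quotients `x / y`,
`x ≠ y`, are transcendental, the number `e` of the elements of `A` in `LogForms L` satisfies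

`e (e - 1) |A| ≤ 4 |A / A| ^ 2` and `e (e - 1) |A| ^ 3 ≤ 4 |A * A| ^ 4`.

So if `|A / A| ≤ K |A|` or `|A * A| ≤ K |A|`, there are at most `1 + 2 K √|A|`, respectively
`1 + 2 K ^ 2 √|A|`, linear forms in `p`-adic logarithms in `A`.  The `p`-adic strong four exponentials
conjecture says that the elements of `A` in `LogForms L` are a multiplicative Sidon set, i.e. that
there is no nontrivial solution of `a d = b c` in `A ∩ LogForms L`.

The proof uses the `p`-adic strong six exponentials theorem (library), the multiplicative (affine)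
independence modulo the algebraic numbers of pairwise non proportional elements of a plane, by unique
factorisation of polynomials in one transcendental number (`GX.mul_indep`, `GX.aff`), and Freiman's
lemma (library).
-/

namespace Pool.Agent.Results.MP_dd0d16_nt.SmallDoubling

open Finset
open scoped Pointwise

/-- `L` is the Iwasawa logarithm on the algebraic closure of `ℚ_p`. -/
structure IsIwasawaLog (p : ℕ) [Fact p.Prime] (L : PadicAlgCl p → PadicAlgCl p) : Prop where
  mul : ∀ x y : PadicAlgCl p, x ≠ 0 → y ≠ 0 → L (x * y) = L x + L y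
  prime : L ((p : ℕ) : PadicAlgCl p) = 0
  ser : ∀ z : PadicAlgCl p, ‖z‖ < 1 →
    HasSum (fun n : ℕ => (-1 : PadicAlgCl p) ^ n * z ^ (n + 1) / ((n : PadicAlgCl p) + 1))
      (L (1 + z))

/-- The space of all linear combinations with algebraic coefficients of `1` and of the values of `L`
at algebraic numbers. -/
noncomputable def LogForms {p : ℕ} [Fact p.Prime] (L : PadicAlgCl p → PadicAlgCl p) :
    Submodule (algebraicClosure ℚ (PadicAlgCl p)) (PadicAlgCl p) :=
  Submodule.span (algebraicClosure ℚ (PadicAlgCl p))
    ({1} ∪ {z | ∃ α : PadicAlgCl p, α ≠ 0 ∧ IsAlgebraic ℚ α ∧ z = L α})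

open Classical in
/-- **Main result.** -/
theorem result (p : ℕ) [Fact p.Prime] (L : PadicAlgCl p → PadicAlgCl p) (hL : IsIwasawaLog p L)
    (A : Finset (PadicAlgCl p)) (h0 : ∀ x ∈ A, x ≠ 0)
    (htr : ∀ x ∈ A, ∀ y ∈ A, x ≠ y → Transcendental ℚ (x / y)) :
    (A.filter (· ∈ LogForms L)).card * ((A.filter (· ∈ LogForms L)).card - 1) * A.card ≤
        4 * (A / A).card ^ 2 ∧
    (A.filter (· ∈ LogForms L)).card * ((A.filter (· ∈ LogForms L)).card - 1) * A.card ^ 3 ≤
        4 * (A * A).card ^ 4 := by
  have hL' : Pool.Agent.W245.PB.IsIwasawaLog p L := ⟨hL.mul, hL.prime, hL.ser⟩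
  have hac : IsAlgClosed (algebraicClosure ℚ (PadicAlgCl p)) :=
    Pool.Agent.N770.isAlgClosed_QC (Cc := PadicAlgCl p)
  have hS := Pool.Agent.U979.GX.six_padic hL'
  have htr' : ∀ s ∈ A, ∀ t ∈ A, s ≠ t →
      s / t ∉ Pool.Agent.U979.GX.Cs (algebraicClosure ℚ (PadicAlgCl p)) (PadicAlgCl p) := by
    intro s hs t ht hst h
    exact htr s hs t ht hst (Pool.Agent.U979.GX.mem_Cs_padic.mp h)
  exact ⟨Pool.Agent.U979.GX.quot_bound hS A h0 htr', Pool.Agent.U979.GX.prod_bound hS A h0 htr'⟩

end Pool.Agent.Results.MP_dd0d16_nt.SmallDoubling
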